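import Pool.Agent.L5helper54.BA.Local

/-!
# Point-finite Borel-additive families: bounded class, or a quasi-measurable cardinal

Let `𝒳` be a point-finite Borel-additive family of subsets of a metric space `X`. Then `𝒳` is
`Σ_α`-additive for some `α < ω₁`, or there is a quasi-measurable cardinal `κ ≤ min (2^ω, |𝒳|)` such that
for every cover of `X` by countably many Borel sets `Y n` there are `n` and a point `x` of `Y n` such
that for every neighbourhood `V` of `x` the densities of the sets `A ∩ V ∩ Y n`, `A ∈ 𝒳`, are not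
bounded by a cardinal less than `κ`.

Consequences.

* In ZFC the answer to Fleissner's question is yes if one of `|𝒳|`, the density of `X`, the supremum of
  the densities of the members of `𝒳` is less than the first weakly inaccessible cardinal, for instance
  for all families of separable sets; yes for all families in a locally (or σ-locally) separable space.
* The answer is yes for all families if there is no weakly inaccessible cardinal `≤ 2^ω`, for instance
  under the continuum hypothesis.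
* A counterexample gives a quasi-measurable cardinal `≤ 2^ω`, hence an inner model with a measurable
  cardinal.

Method. The sets `T` of indices for which the subfamily of `T` is of bounded class form a σ-ideal `I`.
A family indexed by a set of at most `2^ω` indices has members of bounded class, so `I` is
`ω₁`-saturated. If `I` is proper let `κ` be its additivity; the ideal induced on `κ` shows that `κ` is
quasi-measurable, and a tree argument gives `κ ≤ 2^ω`. If the densities of the members are at most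
`λ < κ` then, off an open set on which the family is bounded, `X` has density at most `λ`, and
saturation gives an uncountable selection with separable range; a coding argument for Borel sets then
bounds the whole family. The local form follows, since unboundedness is seen on the union of `ω₁`
members of a disjoint family of open sets.
-/

set_option autoImplicit false

open Cardinal Set

namespace Pool.Agent.Results.MP_b624cf_lc.BoundedOrQuasiMeasurable

open Pool.L5helper54.BA

universe u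

/-- `κ` is quasi-measurable: it is uncountable, and a set `ι` of cardinality `κ` carries a proper ideal
`J` of subsets that contains the singletons, is closed under unions of fewer than `κ` members, and is
`ω₁`-saturated (every disjoint family of sets outside `J` is countable). -/
def QuasiMeasurable (κ : Cardinal.{u}) : Prop :=
  ∃ (ι : Type u) (J : Set (Set ι)), #ι = κ ∧ QM ι J

/-- `κ` is weakly inaccessible: an uncountable regular limit cardinal. -/
def WeaklyInaccessible (κ : Cardinal.{u}) : Prop :=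
  ℵ₀ < κ ∧ κ.IsRegular ∧ Order.IsSuccLimit κ

theorem QuasiMeasurable.weaklyInaccessible {κ : Cardinal.{u}} (h : QuasiMeasurable κ) :
    WeaklyInaccessible κ := by
  obtain ⟨ι, J, rfl, hJ⟩ := h
  refine ⟨hJ.uncountable, hJ.isRegular, ?_⟩
  rw [Order.isSuccLimit_iff, Order.isSuccPrelimit_iff_succ_ne]
  exact ⟨(not_isMin_of_lt hJ.uncountable), fun c h => hJ.ne_succ c h.symm⟩

theorem result : ∀ (X : Type u) [MetricSpace X] (𝒳 : Set (Set X)),
    (∀ x : X, {A : Set X | A ∈ 𝒳 ∧ x ∈ A}.Finite) →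
    (∀ 𝒴 ⊆ 𝒳, @MeasurableSet X (borel X) (⋃₀ 𝒴)) →
    (∀ S : Ordinal.{0} → Set (Set X),
      S 1 = {U : Set X | IsOpen U} →
      (∀ α : Ordinal.{0}, 1 < α → α < (Cardinal.aleph 1).ord →
        S α = {A : Set X | ∃ f : ℕ → Set X, A = (⋃ n, f n) ∧
          ∀ n, ∃ β : Ordinal.{0}, 1 ≤ β ∧ β < α ∧ (f n)ᶜ ∈ S β}) →
      ∃ α : Ordinal.{0}, 1 ≤ α ∧ α < (Cardinal.aleph 1).ord ∧
        ∀ 𝒴 ⊆ 𝒳, ⋃₀ 𝒴 ∈ S α) ∨
    ∃ κ : Cardinal.{u}, QuasiMeasurable κ ∧ WeaklyInaccessible κ ∧ κ ≤ continuum ∧ κ ≤ #𝒳 ∧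
      ∀ Y : ℕ → Set X, (∀ n, @MeasurableSet X (borel X) (Y n)) → (⋃ n, Y n) = Set.univ →
        ∃ n, ∃ x ∈ Y n, ∀ V : Set X, IsOpen V → x ∈ V → ∀ lam < κ,
          ∃ A ∈ 𝒳, ∀ D : Set X, A ∩ V ∩ Y n ⊆ closure D → lam < #D := by
  intro X _ 𝒳 hpf hbor
  have hU : ∀ T : Set 𝒳, U (fun A : 𝒳 => (A : Set X)) T = ⋃₀ (Subtype.val '' T) := by
    intro T; ext x; simp [mem_U]
  have hpf' : ∀ x, {s : 𝒳 | x ∈ (s : Set X)}.Finite := by
    intro x
    refine Set.Finite.of_finite_image ((hpf x).subset ?_) Subtype.val_injective.injOn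
    rintro _ ⟨s, hs, rfl⟩
    exact ⟨s.2, hs⟩
  have hbor' : ∀ S : Ordinal.{0} → Set (Set X), IsHier S → ∀ T : Set 𝒳,
      ∃ α < (aleph 1).ord, U (fun A : 𝒳 => (A : Set X)) T ∈ CC S α := by
    intro S hS T
    refine Pool.L5helper52.BA.borel_mem hS _ ?_
    rw [hU]
    exact hbor _ (by rintro _ ⟨s, -, rfl⟩; exact s.2)
  -- from a bound for the classes `CC S` to the statement
  have hfin : ∀ S : Ordinal.{0} → Set (Set X), IsHier S →
      (∃ α < (aleph 1).ord, ∀ T : Set 𝒳, U (fun A : 𝒳 => (A : Set X)) T ∈ CC S α) →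
      ∃ α : Ordinal.{0}, 1 ≤ α ∧ α < (Cardinal.aleph 1).ord ∧ ∀ 𝒴 ⊆ 𝒳, ⋃₀ 𝒴 ∈ S α := by
    rintro S hS ⟨α, hα, hb⟩
    have hα1 : max 1 α < (aleph 1).ord := max_lt Pool.L5helper52.BA.one_lt hα
    refine ⟨max 1 α + 2, (le_max_left _ _).trans le_self_add, add_two_lt hα1, fun 𝒴 h𝒴 => ?_⟩
    refine Pool.L5helper52.BA.CC_subset hS _ (le_max_left _ _) hα1 ?_
    have h3 : ⋃₀ 𝒴 = U (fun A : 𝒳 => (A : Set X)) {s | (s : Set X) ∈ 𝒴} := by
      rw [hU]
      congr 1
      ext A
      constructor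
      · intro hA; exact ⟨⟨A, h𝒴 hA⟩, hA, rfl⟩
      · rintro ⟨s, hs, rfl⟩; exact hs
    rw [h3]
    exact hS.hier.mono _ _ (le_max_right _ _) (hb _)
  by_cases hQ : ∃ κ : Cardinal.{u}, QuasiMeasurable κ ∧ κ ≤ continuum ∧ κ ≤ #𝒳
  · rw [or_iff_not_imp_left]
    intro hnot
    push Not at hnot
    obtain ⟨S, h1, h2, hnot⟩ := hnot
    have hS : IsHier S := ⟨h1, h2⟩
    -- the least quasi-measurable cardinal
    obtain ⟨κ, ⟨h1, h2, h3⟩, hmin⟩ := WellFounded.has_min (α := Cardinal.{u})
      (r := (· < ·)) Cardinal.lt_wf {κ | QuasiMeasurable κ ∧ κ ≤ continuum ∧ κ ≤ #𝒳} hQ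
    refine ⟨κ, h1, h1.weaklyInaccessible, h2, h3, fun Y hY hYc => ?_⟩
    by_contra hcon
    push Not at hcon
    obtain ⟨ι₀, J₀, rfl, hJ₀⟩ := h1
    obtain ⟨α, hα, hb⟩ := bounded_of_locally_small (fun A : 𝒳 => (A : Set X)) hpf' hS
      (hbor' S hS) hJ₀
      (fun ι J hJ hc hX => not_lt.1 fun hlt => hmin _ ⟨⟨ι, J, rfl, hJ⟩, hc, hX⟩ hlt)
      Y (fun n => Pool.L5helper52.BA.borel_mem hS _ (hY n))
      (fun x => mem_iUnion.1 (by rw [hYc]; exact mem_univ x))
      (fun n x hx => by
        obtain ⟨V, hV, hxV, lam, hlam, h⟩ := hcon n x hx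
        refine ⟨V, hV, hxV, lam, hlam, fun s => ?_⟩
        obtain ⟨D, hD, hle⟩ := h s s.2
        exact ⟨D, hle, hD⟩)
    obtain ⟨β, hβ1, hβ2, hβ⟩ := hfin S hS ⟨α, hα, fun T => hb T (subset_univ T)⟩
    obtain ⟨𝒴, h𝒴, hn⟩ := hnot β hβ1 hβ2
    exact hn (hβ 𝒴 h𝒴)
  · left
    intro S h1 h2
    have hS : IsHier S := ⟨h1, h2⟩
    refine hfin S hS ?_
    rcases dichotomy (fun A : 𝒳 => (A : Set X)) hpf' hS.hier (hbor' S hS) with h |
      ⟨ι, J, hJ, h1, h2⟩
    · exact h
    · exact absurd ⟨#ι, ⟨ι, J, rfl, hJ⟩, h2, h1⟩ hQ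

end Pool.Agent.Results.MP_b624cf_lc.BoundedOrQuasiMeasurable
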